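import Pool.Agent.J4H87.DG.Stm

set_option autoImplicit false

/-! DG: FAC. The product of the solid angle factors along a closed polygon is a trace of a product of 2x2 matrices. -/

namespace Pool.Agent.J4H98.DG.F

open Pool.Agent.Helper683.Lk Pool.Agent.J4H87.DG
open Complex Set Matrix

abbrev Mt := Matrix (Fin 2) (Fin 2) ℂ

theorem nsq (a : R3) : ‖a‖ ^ 2 = a 0 ^ 2 + a 1 ^ 2 + a 2 ^ 2 := by
  rw [EuclideanSpace.norm_sq_eq, Fin.sum_univ_three]
  simp [Real.norm_eq_abs, sq_abs]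

theorem nsqC (a : R3) : (‖a‖ : ℂ) ^ 2 = (a 0 : ℂ) ^ 2 + (a 1 : ℂ) ^ 2 + (a 2 : ℂ) ^ 2 := by
  exact_mod_cast congrArg (fun t : ℝ => (t : ℂ)) (nsq a)

theorem dot_inner (a b : R3) : dot a b = inner ℝ a b := by
  rw [dot, PiLp.inner_apply, Fin.sum_univ_three]
  simp only [RCLike.inner_apply, conj_trivial]
  ring

/-- The matrix `‖a‖ + a · σ`. -/
noncomputable def MM (a : R3) : Mt :=
  !![((‖a‖ : ℂ) + (a 2 : ℂ)), ((a 0 : ℂ) - (a 1 : ℂ) * I); ((a 0 : ℂ) + (a 1 : ℂ) * I), ((‖a‖ : ℂ) - (a 2 : ℂ))]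

theorem MM_det (a : R3) : (MM a) 0 0 * (MM a) 1 1 = (MM a) 0 1 * (MM a) 1 0 := by
  simp only [MM, Matrix.of_apply, Matrix.cons_val', Matrix.cons_val_zero, Matrix.cons_val_one, Matrix.cons_val_fin_one]
  have := nsqC a
  linear_combination this + (a 1 : ℂ) ^ 2 * Complex.I_sq

theorem MM_conj (a : R3) : (MM a)ᴴ = MM a := by
  ext i j
  fin_cases i <;> fin_cases j <;> simp [MM, Matrix.conjTranspose_apply] <;> ring

theorem sandwich (A X : Mt) (h : A 0 0 * A 1 1 = A 0 1 * A 1 0) : A * X * A = (X * A).trace • A := by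
  ext i j
  fin_cases i <;> fin_cases j <;>
    simp [Matrix.mul_apply, Fin.sum_univ_two, Matrix.trace, Matrix.diag]
  · linear_combination (-X 1 1) * h
  · linear_combination X 0 1 * h
  · linear_combination X 1 0 * h
  · linear_combination (-X 0 0) * h

theorem tr2 (a b : R3) : (MM a * MM b).trace = ((2 * (‖a‖ * ‖b‖ + dot a b) : ℝ) : ℂ) := by
  simp only [MM, Matrix.trace, Matrix.diag, Matrix.mul_apply, Fin.sum_univ_two, Matrix.of_apply, Matrix.cons_val',
    Matrix.cons_val_zero, Matrix.cons_val_one, Matrix.cons_val_fin_one, dot]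
  push_cast
  linear_combination (-2 * (a 1 : ℂ) * (b 1 : ℂ)) * Complex.I_sq

theorem tr3 (v a b x : R3) : (MM (a - x) * MM (b - x) * MM v).trace = 2 * FF v a b x := by
  obtain ⟨c, hc⟩ : ∃ c, c = a - x := ⟨_, rfl⟩
  obtain ⟨d, hd⟩ : ∃ d, d = b - x := ⟨_, rfl⟩
  rw [FF, ← hc, ← hd]
  simp only [MM, Matrix.trace, Matrix.diag, Matrix.mul_apply, Fin.sum_univ_two, Matrix.of_apply, Matrix.cons_val',
    Matrix.cons_val_zero, Matrix.cons_val_one, Matrix.cons_val_fin_one, dot, det3]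
  push_cast
  ring_nf
  simp only [Complex.I_sq]
  ring

theorem pos_of (a b : R3) (hb : b ≠ 0) (h : ∀ t : ℝ, t ≤ 0 → a ≠ t • b) : 0 < ‖a‖ * ‖b‖ + dot a b := by
  have h1 : -inner ℝ a b ≤ ‖a‖ * ‖b‖ := by
    have := neg_le_of_abs_le (abs_real_inner_le_norm a b)
    linarith
  rw [dot_inner]
  rcases lt_or_eq_of_le h1 with h2 | h2
  · linarith
  exfalso
  have h3 : inner ℝ (-a) b = ‖-a‖ * ‖b‖ := by rw [inner_neg_left, norm_neg]; exact h2
  rw [inner_eq_norm_mul_iff_real] at h3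
  have hb' : ‖b‖ ≠ 0 := norm_ne_zero_iff.mpr hb
  apply h (-(‖a‖ / ‖b‖)) (by
    have : 0 ≤ ‖a‖ / ‖b‖ := by positivity
    linarith)
  have h4 : ‖b‖ • a = -(‖a‖ • b) := by
    rw [norm_neg] at h3
    rw [← h3, smul_neg, neg_neg]
  calc a = (‖b‖)⁻¹ • (‖b‖ • a) := by rw [smul_smul, inv_mul_cancel₀ hb', one_smul]
    _ = _ := by rw [h4, smul_neg, smul_smul, neg_smul]; congr 2; field_simp

/-- The product of the first `k` matrices. -/
noncomputable def QQ (p : ℕ → R3) (x : R3) : ℕ → Mt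
  | 0 => 1
  | k + 1 => QQ p x k * MM (p k - x)

theorem QQ_head (p : ℕ → R3) (x : R3) (k : ℕ) : ∃ Y : Mt, QQ p x (k + 1) = MM (p 0 - x) * Y := by
  induction k with
  | zero => exact ⟨1, by simp [QQ]⟩
  | succ k ih =>
    obtain ⟨Y, hY⟩ := ih
    exact ⟨Y * MM (p (k + 1) - x), by rw [QQ, hY, Matrix.mul_assoc]⟩

theorem QQ_close (p : ℕ → R3) (x : R3) (m : ℕ) (hm : 0 < m) :
    QQ p x m * MM (p 0 - x) = (QQ p x m).trace • MM (p 0 - x) := by
  obtain ⟨k, rfl⟩ : ∃ k, m = k + 1 := ⟨m - 1, by omega⟩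
  obtain ⟨Y, hY⟩ := QQ_head p x k
  rw [hY, sandwich _ _ (MM_det _), Matrix.trace_mul_comm]

theorem QQ_cont (p : ℕ → R3) (k : ℕ) : Continuous (fun x => QQ p x k) := by
  induction k with
  | zero => exact continuous_const
  | succ k ih =>
    have h1 : Continuous (fun x => MM (p k - x)) := by
      apply continuous_matrix
      intro i j
      fin_cases i <;> fin_cases j <;> simp [MM] <;> fun_prop
    exact ih.matrix_mul h1

theorem chain (p : ℕ → R3) (v x : R3) (k : ℕ) :
    (QQ p x (k + 1) * MM (p (k + 1) - x) * MM v).trace * (MM (p k - x) * MM v).trace =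
      (QQ p x k * MM (p k - x) * MM v).trace * (2 * FF v (p k) (p (k + 1)) x) := by
  obtain ⟨Q, hQ⟩ : ∃ Q, Q = QQ p x k := ⟨_, rfl⟩
  obtain ⟨A, hA⟩ : ∃ A, A = MM (p k - x) := ⟨_, rfl⟩
  obtain ⟨B, hB⟩ : ∃ B, B = MM (p (k + 1) - x) := ⟨_, rfl⟩
  obtain ⟨V, hV⟩ : ∃ V, V = MM v := ⟨_, rfl⟩
  have hAd : A 0 0 * A 1 1 = A 0 1 * A 1 0 := by rw [hA]; exact MM_det _
  have hVd : V 0 0 * V 1 1 = V 0 1 * V 1 0 := by rw [hV]; exact MM_det _
  rw [← tr3, QQ, ← hQ, ← hA, ← hB, ← hV]
  have h1 : (Q * A * B * (V * A * V)).trace = (Q * (A * (B * V) * A) * V).trace := by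
    congr 1
    simp only [Matrix.mul_assoc]
  rw [sandwich V A hVd, sandwich A (B * V) hAd] at h1
  rw [Matrix.mul_smul, Matrix.trace_smul, Matrix.mul_smul, Matrix.smul_mul, Matrix.trace_smul] at h1
  have h2 : (B * V * A).trace = (A * B * V).trace := by
    rw [Matrix.mul_assoc A B V, Matrix.trace_mul_comm A (B * V)]
  rw [h2] at h1
  simp only [smul_eq_mul] at h1
  linear_combination h1

theorem prod_eq (p : ℕ → R3) (v x : R3) (k : ℕ) :
    (∏ i ∈ Finset.range k, (2 * FF v (p i) (p (i + 1)) x)) * (MM (p 0 - x) * MM v).trace =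
      (QQ p x k * MM (p k - x) * MM v).trace * ∏ i ∈ Finset.range k, (MM (p i - x) * MM v).trace := by
  induction k with
  | zero => simp [QQ]
  | succ k ih =>
    rw [Finset.prod_range_succ, Finset.prod_range_succ]
    have := chain p v x k
    linear_combination (2 * FF v (p k) (p (k + 1)) x) * ih -
      (∏ i ∈ Finset.range k, (MM (p i - x) * MM v).trace) * this

theorem herm (p : ℕ → R3) (x : R3) (k : ℕ) (hk : ∀ i < k, x ∉ segment ℝ (p i) (p (i + 1))) :
    ∃ c : ℂ, c ≠ 0 ∧ QQ p x k * MM (p k - x) * (QQ p x k)ᴴ = c • MM (p 0 - x) := by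
  induction k with
  | zero => exact ⟨1, one_ne_zero, by simp [QQ]⟩
  | succ k ih =>
    obtain ⟨c, hc, he⟩ := ih (fun i hi => hk i (by omega))
    refine ⟨(MM (p (k + 1) - x) * MM (p k - x)).trace * c, mul_ne_zero ?_ hc, ?_⟩
    · rw [tr2]
      have hx := hk k (by omega)
      have h1 : p k - x ≠ 0 := by
        intro h
        apply hx
        rw [← sub_eq_zero.mp h]
        exact left_mem_segment ℝ _ _
      have h2 : 0 < ‖p (k + 1) - x‖ * ‖p k - x‖ + dot (p (k + 1) - x) (p k - x) := by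
        apply pos_of _ _ h1
        intro t ht heq
        apply hx
        -- `x = (p (k+1) - t p k) / (1 - t)`
        have h1t : 0 < 1 - t := by linarith
        refine ⟨-t / (1 - t), 1 / (1 - t), by apply div_nonneg <;> linarith, by positivity, by field_simp; ring, ?_⟩
        have h3 : p (k + 1) = x + t • (p k - x) := by rw [← heq]; abel
        rw [h3]
        have h4 : (1 - t) ≠ 0 := h1t.ne'
        have h5 : (-t / (1 - t)) • p k + (1 / (1 - t)) • (x + t • (p k - x)) =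
            (-t / (1 - t) + 1 / (1 - t) * t) • p k + (1 / (1 - t) - 1 / (1 - t) * t) • x := by
          module
        rw [h5]
        have h6 : -t / (1 - t) + 1 / (1 - t) * t = 0 := by field_simp; ring
        have h7 : 1 / (1 - t) - 1 / (1 - t) * t = 1 := by field_simp
        rw [h6, h7, zero_smul, one_smul, zero_add]
      exact_mod_cast (mul_pos two_pos h2).ne'
    · rw [QQ, Matrix.conjTranspose_mul, MM_conj]
      have h1 : QQ p x k * MM (p k - x) * MM (p (k + 1) - x) * (MM (p k - x) * (QQ p x k)ᴴ) =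
          QQ p x k * (MM (p k - x) * MM (p (k + 1) - x) * MM (p k - x)) * (QQ p x k)ᴴ := by
        simp only [Matrix.mul_assoc]
      rw [h1, sandwich _ _ (MM_det _), Matrix.mul_smul, Matrix.smul_mul, he, smul_smul]

theorem t_FAC : S_FAC := by
  intro m p hpm
  refine ⟨fun x => (QQ p x m).trace, (QQ_cont p m).matrix_trace, ?_, ?_⟩
  · intro x hx h0
    rcases Nat.eq_zero_or_pos m with rfl | hm
    · simp [QQ] at h0
    have h0' : (QQ p x m).trace = 0 := h0
    obtain ⟨c, hc, he⟩ := herm p x m hx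
    rw [hpm, QQ_close p x m hm, h0', zero_smul, Matrix.zero_mul] at he
    have h1 : MM (p 0 - x) = 0 := by
      rcases smul_eq_zero.mp he.symm with h | h
      · exact absurd h hc
      · exact h
    have h2 : (MM (p 0 - x)).trace = 0 := by rw [h1]; simp
    have h3 : (MM (p 0 - x)).trace = ((2 * ‖p 0 - x‖ : ℝ) : ℂ) := by
      simp only [MM, Matrix.trace, Matrix.diag, Fin.sum_univ_two, Matrix.of_apply, Matrix.cons_val',
        Matrix.cons_val_zero, Matrix.cons_val_one, Matrix.cons_val_fin_one]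
      push_cast
      ring
    rw [h3] at h2
    have h4 : 2 * ‖p 0 - x‖ = 0 := by exact_mod_cast h2
    have h5 : p 0 - x = 0 := norm_eq_zero.mp (by linarith)
    apply hx 0 hm
    rw [← sub_eq_zero.mp h5]
    exact left_mem_segment ℝ _ _
  · intro v x hv hreg
    rcases Nat.eq_zero_or_pos m with rfl | hm
    · exact ⟨1 / 2, by norm_num, by simp [QQ]⟩
    have hτ : ∀ i < m, 0 < ‖p i - x‖ * ‖v‖ + dot (p i - x) v := by
      intro i hi
      apply pos_of _ _ hv
      intro t _ heq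
      apply hreg i hi t
      rw [← heq]
      abel
    refine ⟨∏ i ∈ Finset.range m, (‖p i - x‖ * ‖v‖ + dot (p i - x) v), Finset.prod_pos (fun i hi =>
      hτ i (Finset.mem_range.mp hi)), ?_⟩
    have h1 := prod_eq p v x m
    rw [hpm, QQ_close p x m hm, Matrix.smul_mul, Matrix.trace_smul, smul_eq_mul] at h1
    have h0 : (MM (p 0 - x) * MM v).trace ≠ 0 := by
      rw [tr2]
      exact_mod_cast (mul_pos two_pos (hτ 0 hm)).ne'
    have h2 : (∏ i ∈ Finset.range m, (2 * FF v (p i) (p (i + 1)) x)) =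
        (QQ p x m).trace * ∏ i ∈ Finset.range m, (MM (p i - x) * MM v).trace := by
      apply mul_right_cancel₀ h0
      linear_combination h1
    rw [Finset.prod_mul_distrib, Finset.prod_congr rfl (fun i _ => tr2 (p i - x) v)] at h2
    simp only [Complex.ofReal_mul, Complex.ofReal_ofNat] at h2
    rw [Finset.prod_mul_distrib] at h2
    have h3 : (∏ _i ∈ Finset.range m, (2 : ℂ)) ≠ 0 := by
      rw [Finset.prod_const]; exact pow_ne_zero _ two_ne_zero
    apply mul_left_cancel₀ h3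
    rw [h2]
    push_cast
    ring

end Pool.Agent.J4H98.DG.F
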