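import Pool.Agent.J4H87.DG.Stm

set_option autoImplicit false

/-! DG: TOPO. An embedded sphere in three-space and logarithms. -/

namespace Pool.Agent.J4H98.DG

open Pool.Agent.Helper683.Lk Pool.Agent.J4H87.DG
open Complex Set Topology

theorem log_E {E : Type} [NormedAddCommGroup E] [NormedSpace ℝ E] (g : E → ℂ) (hg : Continuous g)
    (h0 : ∀ p, g p ≠ 0) : ∃ f : E → ℂ, Continuous f ∧ ∀ p, exp (f p) = g p := by
  have hs : IsSimplyConnected (Set.univ : Set E) := by
    have : SimplyConnectedSpace (Set.univ : Set E) := by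
      have : ContractibleSpace (Set.univ : Set E) :=
        (Homeomorph.Set.univ E).contractibleSpace
      infer_instance
    exact this
  obtain ⟨f, hf, hfe⟩ := Complex.exists_continuousOn_eqOn_exp_comp hs isOpen_univ
    (g := g) hg.continuousOn (by
      rintro ⟨p, -, hp⟩
      exact h0 p hp)
  exact ⟨f, continuousOn_univ.mp hf, fun p => hfe (Set.mem_univ p)⟩

theorem const_of_exp {X : Type} [TopologicalSpace X] (s : Set X) (hs : IsPreconnected s) (F : X → ℂ)
    (hF : ContinuousOn F s) (h1 : ∀ x ∈ s, exp (F x) = 1) : ∀ x ∈ s, ∀ y ∈ s, F x = F y := by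
  intro x hx y hy
  have hdisc : DiscreteTopology (range ((↑) : ℤ → ℝ)) :=
    (Int.isClosedEmbedding_coe_real.isEmbedding.toHomeomorph.symm.isEmbedding).discreteTopology
  have h2 : (2 * Real.pi * Complex.I : ℂ) ≠ 0 := Complex.two_pi_I_ne_zero
  have h3 : ∀ x ∈ s, ∃ n : ℤ, F x = n * (2 * Real.pi * Complex.I) := fun x hx =>
    Complex.exp_eq_one_iff.mp (h1 x hx)
  have hre : ∀ n : ℤ, ((n : ℂ) * (2 * Real.pi * Complex.I) / (2 * Real.pi * Complex.I)).re = n := by
    intro n
    rw [mul_div_assoc, div_self h2, mul_one]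
    simp
  have hm : MapsTo (fun x => (F x / (2 * Real.pi * Complex.I)).re) s (range ((↑) : ℤ → ℝ)) := by
    intro x hx
    obtain ⟨n, hn⟩ := h3 x hx
    refine ⟨n, ?_⟩
    simp only [hn]
    exact (hre n).symm
  have hc : ContinuousOn (fun x => (F x / (2 * Real.pi * Complex.I)).re) s :=
    Complex.continuous_re.comp_continuousOn (hF.div_const _)
  have h4 := hs.constant_of_mapsTo (isDiscrete_iff_discreteTopology.mpr hdisc) hc hm hx hy
  obtain ⟨n, hn⟩ := h3 x hx
  obtain ⟨m, hm'⟩ := h3 y hy
  simp only [hn, hm', hre] at h4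
  rw [hn, hm', show n = m from by exact_mod_cast h4]

theorem log_compl (v : R3) (hv : ‖v‖ = 1) (g : Metric.sphere (0 : R3) 1 → ℂ) (hg : Continuous g)
    (h0 : ∀ p, g p ≠ 0) (N : Metric.sphere (0 : R3) 1) (hN : (N : R3) = v) :
    ∃ l : Metric.sphere (0 : R3) 1 → ℂ, ContinuousOn l {N}ᶜ ∧ ∀ p, p ≠ N → exp (l p) = g p := by
  have hNe : N = ⟨v, by simp [hv]⟩ := Subtype.ext hN
  have hsrc : (stereographic hv).source = {N}ᶜ := by rw [stereographic_source, hNe]
  have htgt : (stereographic hv).target = univ := stereographic_target hv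
  have hcs : Continuous (stereographic hv).symm := by
    have := (stereographic hv).continuousOn_symm
    rw [htgt] at this
    exact continuousOn_univ.mp this
  obtain ⟨f, hf, hfe⟩ := log_E (fun y => g ((stereographic hv).symm y)) (hg.comp hcs) (fun y => h0 _)
  refine ⟨fun p => f (stereographic hv p), ?_, ?_⟩
  · rw [← hsrc]
    exact hf.comp_continuousOn (stereographic hv).continuousOn
  · intro p hp
    rw [hfe]
    have hp' : p ∈ (stereographic hv).source := by rw [hsrc]; exact hp
    rw [(stereographic hv).left_inv hp']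

theorem precon (v : R3) (hv : ‖v‖ = 1) (N S : Metric.sphere (0 : R3) 1) (hN : (N : R3) = v) (hNS : N ≠ S) :
    IsPreconnected ({N}ᶜ ∩ {S}ᶜ : Set (Metric.sphere (0 : R3) 1)) := by
  have hNe : N = ⟨v, by simp [hv]⟩ := Subtype.ext hN
  have hsrc : (stereographic hv).source = {N}ᶜ := by rw [stereographic_source, hNe]
  have htgt : (stereographic hv).target = univ := stereographic_target hv
  have hcs : Continuous (stereographic hv).symm := by
    have := (stereographic hv).continuousOn_symm
    rw [htgt] at this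
    exact continuousOn_univ.mp this
  have hSs : S ∈ (stereographic hv).source := by rw [hsrc]; exact fun h => hNS h.symm
  have hfact : Fact (Module.finrank ℝ R3 = 2 + 1) := ⟨by simp⟩
  have hrank : 1 < Module.rank ℝ (Submodule.span ℝ {v})ᗮ := by
    have h1 : Module.finrank ℝ (Submodule.span ℝ {v})ᗮ = 2 :=
      Submodule.finrank_orthogonal_span_singleton (n := 2) (by
        intro h; rw [h] at hv; simp at hv)
    rw [← Module.finrank_eq_rank, h1]
    norm_num
  have h1 := (isConnected_compl_singleton_of_one_lt_rank hrank (stereographic hv S)).isPreconnected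
  have h2 : ({N}ᶜ ∩ {S}ᶜ : Set (Metric.sphere (0 : R3) 1)) =
      (stereographic hv).symm '' {stereographic hv S}ᶜ := by
    ext x
    constructor
    · rintro ⟨hx1, hx2⟩
      have hxs : x ∈ (stereographic hv).source := by rw [hsrc]; exact hx1
      refine ⟨stereographic hv x, ?_, (stereographic hv).left_inv hxs⟩
      intro h
      exact hx2 ((stereographic hv).injOn hxs hSs h)
    · rintro ⟨y, hy, rfl⟩
      have hyt : y ∈ (stereographic hv).target := by rw [htgt]; trivial
      refine ⟨?_, ?_⟩
      · rw [← hsrc]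
        exact (stereographic hv).map_target hyt
      · intro h
        apply hy
        have h' : (stereographic hv).symm y = S := h
        rw [mem_singleton_iff, ← h', (stereographic hv).right_inv hyt]
  rw [h2]
  exact h1.image _ hcs.continuousOn

theorem log_sphere (g : Metric.sphere (0 : R3) 1 → ℂ) (hg : Continuous g)
    (h0 : ∀ p, g p ≠ 0) : ∃ l : Metric.sphere (0 : R3) 1 → ℂ, Continuous l ∧ ∀ p, exp (l p) = g p := by
  classical
  obtain ⟨v, hv⟩ : ∃ v : R3, ‖v‖ = 1 := ⟨EuclideanSpace.single 0 1, by simp⟩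
  obtain ⟨N, hN⟩ : ∃ N : Metric.sphere (0 : R3) 1, (N : R3) = v := ⟨⟨v, by simp [hv]⟩, rfl⟩
  obtain ⟨S, hS⟩ : ∃ S : Metric.sphere (0 : R3) 1, (S : R3) = -v := ⟨⟨-v, by simp [hv]⟩, rfl⟩
  have hNS : N ≠ S := by
    intro h
    have h1 : v = -v := by
      calc v = (N : R3) := hN.symm
        _ = (S : R3) := by rw [h]
        _ = -v := hS
    have h2 : v = 0 := by
      have h3 : (2 : ℝ) • v = 0 := by
        rw [two_smul]
        nth_rewrite 1 [h1]
        exact neg_add_cancel v
      exact (smul_eq_zero.mp h3).resolve_left (by norm_num)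
    rw [h2] at hv
    simp at hv
  obtain ⟨l1, hl1, he1⟩ := log_compl v hv g hg h0 N hN
  obtain ⟨l2, hl2, he2⟩ := log_compl (-v) (by simp [hv]) g hg h0 S hS
  have hpre := precon v hv N S hN hNS
  have hcst := const_of_exp ({N}ᶜ ∩ {S}ᶜ) hpre (fun x => l1 x - l2 x)
    ((hl1.mono inter_subset_left).sub (hl2.mono inter_subset_right)) (by
      rintro x ⟨hx1, hx2⟩
      rw [Complex.exp_sub, he1 x hx1, he2 x hx2, div_self (h0 x)])
  obtain ⟨c, hc1, hc⟩ : ∃ c : ℂ, exp c = 1 ∧ ∀ x, x ≠ N → x ≠ S → l1 x = l2 x + c := by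
    by_cases hne : ({N}ᶜ ∩ {S}ᶜ : Set (Metric.sphere (0 : R3) 1)).Nonempty
    · obtain ⟨x0, hx0⟩ := hne
      refine ⟨l1 x0 - l2 x0, ?_, ?_⟩
      · rw [Complex.exp_sub, he1 x0 hx0.1, he2 x0 hx0.2, div_self (h0 x0)]
      · intro x hx1 hx2
        have := hcst x ⟨hx1, hx2⟩ x0 hx0
        linear_combination this
    · refine ⟨0, Complex.exp_zero, ?_⟩
      intro x hx1 hx2
      exact absurd ⟨x, hx1, hx2⟩ hne
  refine ⟨fun x => if x = N then l2 x + c else l1 x, ?_, ?_⟩
  · rw [continuous_iff_continuousAt]
    intro x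
    by_cases hx : x = N
    · have hxS : x ≠ S := by rw [hx]; exact hNS
      have h1 : ContinuousAt (fun x => l2 x + c) x :=
        ((hl2.continuousAt (isOpen_compl_singleton.mem_nhds hxS))).add continuousAt_const
      refine h1.congr ?_
      filter_upwards [isOpen_compl_singleton.mem_nhds hxS] with y hy
      by_cases hyN : y = N
      · simp [hyN]
      · simp only [hyN, if_false]
        exact (hc y hyN hy).symm
    · have h1 : ContinuousAt l1 x := hl1.continuousAt (isOpen_compl_singleton.mem_nhds hx)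
      refine h1.congr ?_
      filter_upwards [isOpen_compl_singleton.mem_nhds hx] with y hy
      have hyN : y ≠ N := hy
      simp [hyN]
  · intro x
    by_cases hx : x = N
    · simp only [hx, if_true]
      rw [Complex.exp_add, hc1, he2 N hNS, mul_one]
    · simp only [hx, if_false]
      exact he1 x hx

theorem t_TOPO : S_TOPO := by
  classical
  intro f hf hinj B U hB hU hBU hun Θ hΘ hne
  have hS : ∀ y, f y ∉ B ∧ f y ∉ U := by
    intro y
    have : f y ∉ B ∪ U := by
      rw [hun]
      exact fun h => h (mem_range_self y)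
    exact ⟨fun h => this (Or.inl h), fun h => this (Or.inr h)⟩
  obtain ⟨l, hl, hle⟩ := log_sphere (fun y => Θ (f y)) (hΘ.comp hf) (fun y => hne _ (hS y).1)
  have hemb : IsClosedEmbedding f := hf.isClosedEmbedding hinj
  obtain ⟨G, hG⟩ := ContinuousMap.exists_extension' hemb ⟨l, hl⟩
  have hGe : ∀ y, G (f y) = l y := fun y => congrFun hG y
  have hcont : Continuous (B.piecewise (fun _ => (1 : ℂ)) (fun x => Θ x * exp (-G x))) := by
    apply Continuous.piecewise
    · intro x hx
      rw [hB.frontier_eq] at hx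
      have hxU : x ∉ U := by
        intro hxU
        have h1 := hU.inter_closure (s := U) (t := B) ⟨hxU, hx.1⟩
        rw [hBU.symm.inter_eq] at h1
        simp at h1
      have hxr : x ∈ range f := by
        by_contra hxr
        have : x ∈ B ∪ U := by rw [hun]; exact hxr
        rcases this with h | h
        · exact hx.2 h
        · exact hxU h
      obtain ⟨y, rfl⟩ := hxr
      rw [hGe, ← hle y, ← Complex.exp_add]
      simp
    · exact continuous_const
    · exact hΘ.mul (Complex.continuous_exp.comp (map_continuous G).neg)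
  obtain ⟨H, hH, hHe⟩ := log_E _ hcont (by
    intro x
    by_cases hx : x ∈ B
    · simp [Set.piecewise, hx]
    · simp only [Set.piecewise, hx, if_false]
      exact mul_ne_zero (hne x hx) (Complex.exp_ne_zero _))
  refine ⟨fun x => G x + H x, (map_continuous G).add hH, ?_⟩
  intro x hx
  have hxB : x ∉ B := fun h => hBU.le_bot ⟨h, hx⟩
  rw [Complex.exp_add, hHe]
  simp only [Set.piecewise, hxB, if_false]
  rw [mul_left_comm, ← Complex.exp_add]
  simp

end Pool.Agent.J4H98.DG
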